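import Pool.Agent.Helper520.MZ.Levels

/-!
# A metric space with `ind X = 0` and without large transfinite dimension, in ZFC
-/

namespace Pool.Agent.Results.MP_3d1901_gt.ClopenBaseNoTrInd

open Set Topology

/-- `TrIndLE α X` says `trInd X ≤ α` (large transfinite dimension, `α ≥ 0` an ordinal):
for every closed `A` and every open `V ⊇ A` there is an open `U` with `A ⊆ U ⊆ V` such that the
boundary of `U` is empty (i.e. has `trInd = -1`) or has `trInd ≤ β` for some ordinal `β < α`. -/
def TrIndLE (α : Ordinal.{0}) (X : Type) [TopologicalSpace X] : Prop :=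
  ∀ A V : Set X, IsClosed A → IsOpen V → A ⊆ V →
    ∃ U : Set X, IsOpen U ∧ A ⊆ U ∧ U ⊆ V ∧
      (frontier U = ∅ ∨ ∃ β : Ordinal.{0}, ∃ _ : β < α, TrIndLE β (frontier U))
termination_by α

/-- `X` has large transfinite dimension: `trInd X ≤ α` for some ordinal `α`. -/
def HasTrInd (X : Type) [TopologicalSpace X] : Prop := ∃ α : Ordinal.{0}, TrIndLE α X

/-! ### The descent -/

open Pool.Agent.Helper520.MZ in
theorem descent (X : ℕ → Type) [∀ n, MetricSpace (X n)] (M : ∀ n, Set (X n))
    (h : ∀ n, ℕ → X n → ℝ) (hLip : ∀ n i p q, |h n i p - h n i q| ≤ dist p q)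
    (hne : ∀ n, ¬ Lev (h n) (M n) n ∅) :
    ∀ (α : Ordinal.{0}) (k : ℕ) (Y : Type) [TopologicalSpace Y] (f : Y → Σ n, X n),
      IsEmbedding f → (∀ n ≥ k, Lev (h n) (M n) k {x | ∃ y, f y = ⟨n, x⟩}) → ¬ TrIndLE α Y := by
  intro α
  induction α using WellFoundedLT.induction with
  | ind α ih =>
  intro k Y tY f hf hLev hY
  rw [TrIndLE] at hY
  let H : (Σ n, X n) → ℝ := fun p => if k < p.1 then h p.1 k p.2 else 1 / 2
  have hH : Continuous H := by
    rw [continuous_sigma_iff]
    intro n
    by_cases hn : k < n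
    · simp only [H, if_pos hn]
      rw [Metric.continuous_iff]
      intro b ε hε
      refine ⟨ε, hε, fun a ha => ?_⟩
      rw [Real.dist_eq]
      exact (hLip n k a b).trans_lt ha
    · simp only [H, if_neg hn]
      exact continuous_const
  have hHf : Continuous (fun y => H (f y)) := hH.comp hf.continuous
  obtain ⟨U, hU, hAU, hUV, hfr⟩ := hY {y | H (f y) ≤ 1 / 3} {y | H (f y) < 1 / 2}
    (isClosed_le hHf continuous_const) (isOpen_lt hHf continuous_const)
    (fun y (hy : H (f y) ≤ 1 / 3) => show H (f y) < 1 / 2 by linarith)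
  have hcl : ∀ y ∈ closure U, H (f y) ≤ 1 / 2 := fun y hy =>
    closure_lt_subset_le hHf continuous_const (closure_mono hUV hy)
  obtain ⟨U', hU', hUU'⟩ := hf.isInducing.isOpen_iff.1 hU
  obtain ⟨W', hW', hWW'⟩ := hf.isInducing.isOpen_iff.1 (isClosed_closure (s := U)).isOpen_compl
  have hUiff : ∀ y, f y ∈ U' ↔ y ∈ U := fun y => by rw [← hUU']; rfl
  have hWiff : ∀ y, f y ∈ W' ↔ y ∉ closure U := fun y => by
    rw [← mem_compl_iff, ← hWW']; rfl
  have key : ∀ n ≥ k + 1, Lev (h n) (M n) (k + 1) {x | ∃ y ∈ frontier U, f y = ⟨n, x⟩} := by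
    intro n hn
    refine ⟨_, Sigma.mk n ⁻¹' U', Sigma.mk n ⁻¹' W', hLev n (by omega),
      hU'.preimage continuous_sigmaMk, hW'.preimage continuous_sigmaMk, ?_, ?_, ?_, ?_⟩
    · rw [eq_empty_iff_forall_notMem]
      rintro x ⟨⟨⟨y, hy⟩, hx1⟩, hx2⟩
      have h1 : f y ∈ U' := by rw [hy]; exact hx1
      have h2 : f y ∈ W' := by rw [hy]; exact hx2
      exact (hWiff y).1 h2 (subset_closure ((hUiff y).1 h1))
    · rintro x ⟨y, hy⟩ hx
      have h1 : y ∈ U := hAU (by
        show H (f y) ≤ 1 / 3
        rw [hy]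
        simpa only [H, if_pos (show k < n by omega)] using hx)
      have h2 := (hUiff y).2 h1
      rw [hy] at h2
      exact h2
    · rintro x ⟨y, hy⟩ hx
      have h1 : y ∉ closure U := fun hcon => by
        have h3 := hcl y hcon
        rw [hy] at h3
        simp only [H, if_pos (show k < n by omega)] at h3
        linarith
      have h2 := (hWiff y).2 h1
      rw [hy] at h2
      exact h2
    · ext x
      constructor
      · rintro ⟨y, hy1, hy2⟩
        refine ⟨⟨y, hy2⟩, ?_⟩
        rw [hU.frontier_eq] at hy1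
        rintro (hx | hx)
        · have h1 : f y ∈ U' := by rw [hy2]; exact hx
          exact hy1.2 ((hUiff y).1 h1)
        · have h1 : f y ∈ W' := by rw [hy2]; exact hx
          exact (hWiff y).1 h1 hy1.1
      · rintro ⟨⟨y, hy⟩, hx⟩
        refine ⟨y, ?_, hy⟩
        rw [hU.frontier_eq]
        constructor
        · by_contra hcon
          apply hx
          right
          have h2 := (hWiff y).2 hcon
          rw [hy] at h2
          exact h2
        · intro hcon
          apply hx
          left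
          have h2 := (hUiff y).2 hcon
          rw [hy] at h2
          exact h2
  rcases hfr with hfr | ⟨β, hβ, hfr⟩
  · apply hne (k + 1)
    have := key (k + 1) le_rfl
    rw [hfr] at this
    simpa using this
  · refine ih β hβ (k + 1) (frontier U) (fun y => f y) (hf.comp IsEmbedding.subtypeVal) ?_ hfr
    intro n hn
    have := key n hn
    convert this using 2
    ext x
    constructor
    · rintro ⟨y, hy⟩
      exact ⟨y, y.2, hy⟩
    · rintro ⟨y, hy1, hy2⟩
      exact ⟨⟨y, hy1⟩, hy2⟩

open Pool.Agent.Helper520.MZ in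
/-- There is a metric space with a base of clopen sets (so `ind X = 0`) and without large
transfinite dimension. -/
theorem result : ∃ (X : Type) (_ : MetricSpace X),
    TopologicalSpace.IsTopologicalBasis {s : Set X | IsClopen s} ∧ ¬ HasTrInd X := by
  choose X mX M h hLip hind hcube using fun n => machine n Unit
  let m : MetricSpace (Σ n, M n) := Metric.Sigma.metricSpace
  refine ⟨Σ n, M n, m, ?_, ?_⟩
  · refine TopologicalSpace.isTopologicalBasis_of_isOpen_of_nhds (fun s hs => hs.isOpen) ?_
    rintro ⟨n, p⟩ O hp hO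
    have h1 : IsOpen (Sigma.mk n ⁻¹' O) := hO.preimage continuous_sigmaMk
    obtain ⟨O', hO', hOO'⟩ := isOpen_induced_iff.1 h1
    have hpO' : (p : X n) ∈ O' := by
      have : p ∈ Subtype.val ⁻¹' O' := by rw [hOO']; exact hp
      exact this
    obtain ⟨V, hV, hpV, hVO, hMV⟩ := hind n p O' hO' hpO'
    have hclopen : IsClopen (Subtype.val ⁻¹' V : Set (M n)) := by
      refine ⟨?_, hV.preimage continuous_subtype_val⟩
      have : (Subtype.val ⁻¹' V : Set (M n)) = Subtype.val ⁻¹' (closure V) := by
        ext y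
        exact ⟨fun hy => subset_closure hy, fun hy => hMV ⟨y.2, hy⟩⟩
      rw [this]
      exact isClosed_closure.preimage continuous_subtype_val
    refine ⟨Sigma.mk n '' (Subtype.val ⁻¹' V), ?_, ⟨p, hpV, rfl⟩, ?_⟩
    · exact ⟨Topology.IsClosedEmbedding.sigmaMk.isClosedMap _ hclopen.1,
        isOpenMap_sigmaMk _ hclopen.2⟩
    · rintro _ ⟨y, hy, rfl⟩
      have : y ∈ Subtype.val ⁻¹' O' := hVO hy
      rw [hOO'] at this
      exact this
  · rintro ⟨α, hα⟩
    refine descent X M h hLip (fun n => Lev.not_empty (hLip n) n (hcube n)) α 0 (Σ n, M n)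
      (Sigma.map id fun n (x : M n) => (x : X n)) ?_ ?_ hα
    · exact (isEmbedding_sigmaMap Function.injective_id).2 fun n => IsEmbedding.subtypeVal
    · intro n _
      show {x | ∃ y : Σ n, M n, (⟨y.1, y.2⟩ : Σ n, X n) = ⟨n, x⟩} = M n
      ext x
      constructor
      · rintro ⟨⟨n', y⟩, hy⟩
        simp only [Sigma.mk.injEq] at hy
        obtain ⟨rfl, hy⟩ := hy
        rw [← eq_of_heq hy]
        exact y.2
      · intro hx
        exact ⟨⟨n, x, hx⟩, rfl⟩

end Pool.Agent.Results.MP_3d1901_gt.ClopenBaseNoTrInd
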